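import Pool.Agent.Helper22.AE.F2
import Pool.Agent.Helper22.AE.E0
import Pool.Agent.Helper93.EX.Defs

/-!
# XL, block B: almost surely the frequencies `|k| H(k)`, `k` primitive, are linearly independent over `ℚ`
-/

open MeasureTheory Real Set Filter Topology unitInterval

set_option autoImplicit false

namespace Pool.Agent.Helper35.XL

open Pool.Agent.Helper22.AE
open Pool.Agent.Helper93.EX (prim)

/-- there is no integer relation between the frequencies `|k| H(k)` of different primitive vectors -/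
def Ind (H : ℝ → ℝ) : Prop :=
  ∀ (n : ℕ) (k : Fin n → ℤ × ℤ), Function.Injective k → (∀ i, Int.gcd (k i).1 (k i).2 = 1) → ∀ q : Fin n → ℤ,
    ∑ i, (q i : ℝ) * (nk (k i) * H (tk (k i))) = 0 → q = 0

theorem nk_cos (k : ℤ × ℤ) : nk k * cos (tk k) = k.1 := by
  unfold nk tk
  rw [Complex.norm_mul_cos_arg]
  rfl

theorem nk_sin (k : ℤ × ℤ) : nk k * sin (tk k) = k.2 := by
  unfold nk tk
  rw [Complex.norm_mul_sin_arg]
  rfl

theorem nk_pos {k : ℤ × ℤ} (hk : Int.gcd k.1 k.2 = 1) : 0 < nk k := by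
  unfold nk
  rw [norm_pos_iff]
  intro h
  have h1 : (k.1 : ℝ) = 0 := congrArg Complex.re h
  have h2 : (k.2 : ℝ) = 0 := congrArg Complex.im h
  have h3 : k.1 = 0 := by exact_mod_cast h1
  have h4 : k.2 = 0 := by exact_mod_cast h2
  rw [h3, h4] at hk
  simp at hk

/-- primitive vectors with the same direction are equal -/
theorem dir_inj {k l : ℤ × ℤ} (hk : Int.gcd k.1 k.2 = 1) (hl : Int.gcd l.1 l.2 = 1) (hc : cos (tk k) = cos (tk l)) (hs : sin (tk k) = sin (tk l)) :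
    k = l := by
  have pk := nk_pos hk
  have pl := nk_pos hl
  have e1 : (k.1 : ℝ) * nk l = l.1 * nk k := by
    rw [← nk_cos k, ← nk_cos l, hc]
    ring
  have e2 : (k.2 : ℝ) * nk l = l.2 * nk k := by
    rw [← nk_sin k, ← nk_sin l, hs]
    ring
  have e3 : (k.1 : ℝ) * l.2 = k.2 * l.1 := by
    have h1 : ((k.1 : ℝ) * l.2) * (nk k * nk l) = (k.2 * l.1) * (nk k * nk l) := by
      calc ((k.1 : ℝ) * l.2) * (nk k * nk l) = (k.1 * nk l) * (l.2 * nk k) := by ring
        _ = (l.1 * nk k) * (k.2 * nk l) := by rw [e1, e2]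
        _ = _ := by ring
    exact mul_right_cancel₀ (mul_pos pk pl).ne' h1
  have e4 : k.1 * l.2 = k.2 * l.1 := by exact_mod_cast e3
  obtain ⟨u, v, huv⟩ : ∃ u v : ℤ, u * k.1 + v * k.2 = 1 := by
    have := Int.gcd_eq_gcd_ab k.1 k.2
    rw [hk] at this
    refine ⟨Int.gcdA k.1 k.2, Int.gcdB k.1 k.2, ?_⟩
    push_cast at this
    linarith
  set t : ℤ := u * l.1 + v * l.2 with ht
  have f1 : l.1 = t * k.1 := by
    calc l.1 = l.1 * (u * k.1 + v * k.2) := by rw [huv, mul_one]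
      _ = u * l.1 * k.1 + v * (k.2 * l.1) := by ring
      _ = u * l.1 * k.1 + v * (k.1 * l.2) := by rw [e4]
      _ = t * k.1 := by rw [ht]; ring
  have f2 : l.2 = t * k.2 := by
    calc l.2 = l.2 * (u * k.1 + v * k.2) := by rw [huv, mul_one]
      _ = u * (k.1 * l.2) + v * l.2 * k.2 := by ring
      _ = u * (k.2 * l.1) + v * l.2 * k.2 := by rw [e4]
      _ = t * k.2 := by rw [ht]; ring
  have f3 : t.natAbs = 1 := by
    rw [f1, f2, Int.gcd_mul_left, hk, mul_one] at hl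
    exact hl
  rcases Int.natAbs_eq t with h | h
  · rw [f3] at h
    refine Prod.ext ?_ ?_
    · rw [f1, h]; simp
    · rw [f2, h]; simp
  · rw [f3] at h
    exfalso
    have g1 : (l.1 : ℝ) = -k.1 := by rw [f1, h]; push_cast; ring
    have g2 : (l.2 : ℝ) = -k.2 := by rw [f2, h]; push_cast; ring
    rw [g1] at e1
    rw [g2] at e2
    have g3 : (k.1 : ℝ) * (nk l + nk k) = 0 := by linarith
    have g4 : (k.2 : ℝ) * (nk l + nk k) = 0 := by linarith
    have g5 : nk l + nk k ≠ 0 := by positivity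
    have g6 : (k.1 : ℝ) = 0 := (mul_eq_zero.1 g3).resolve_right g5
    have g7 : (k.2 : ℝ) = 0 := (mul_eq_zero.1 g4).resolve_right g5
    have g8 : k.1 = 0 := by exact_mod_cast g6
    have g9 : k.2 = 0 := by exact_mod_cast g7
    rw [g8, g9] at hk
    simp at hk

/-- Vandermonde: some coefficient does not vanish -/
theorem coef_ne {n : ℕ} {k : Fin n → ℤ × ℤ} (hk : Function.Injective k) (hg : ∀ i, Int.gcd (k i).1 (k i).2 = 1) {q : Fin n → ℤ} (hq : q ≠ 0) :
    ∃ l : Fin n, ∑ i, (q i : ℝ) * (nk (k i) * cos ((l : ℕ) * tk (k i))) ≠ 0 ∨ ∑ i, (q i : ℝ) * (nk (k i) * sin ((l : ℕ) * tk (k i))) ≠ 0 := by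
  by_contra hcon
  push Not at hcon
  apply hq
  set z : Fin n → ℂ := fun i => Complex.exp (((tk (k i) : ℝ) : ℂ) * Complex.I) with hz
  have hinj : Function.Injective z := by
    intro i j hij
    apply hk
    have h1 : z i = z j := hij
    simp only [hz] at h1
    have hre := congrArg Complex.re h1
    have him := congrArg Complex.im h1
    rw [Complex.exp_ofReal_mul_I_re, Complex.exp_ofReal_mul_I_re] at hre
    rw [Complex.exp_ofReal_mul_I_im, Complex.exp_ofReal_mul_I_im] at him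
    exact dir_inj (hg i) (hg j) hre him
  have hpow : ∀ (i : Fin n) (l : ℕ), z i ^ l = ((cos (l * tk (k i)) : ℝ) : ℂ) + ((sin (l * tk (k i)) : ℝ) : ℂ) * Complex.I := by
    intro i l
    simp only [hz]
    rw [← Complex.exp_nat_mul]
    have e : (l : ℂ) * (((tk (k i) : ℝ) : ℂ) * Complex.I) = (((l * tk (k i) : ℝ)) : ℂ) * Complex.I := by
      push_cast
      ring
    rw [e, Complex.exp_mul_I, Complex.ofReal_cos, Complex.ofReal_sin]
  have h0 := Matrix.eq_zero_of_forall_pow_sum_mul_pow_eq_zero (f := z) (v := fun i => (((q i : ℝ) * nk (k i) : ℝ) : ℂ)) hinj (fun l => by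
    obtain ⟨h1, h2⟩ := hcon l
    have e : ∑ i, (((q i : ℝ) * nk (k i) : ℝ) : ℂ) * z i ^ (l : ℕ) =
        ((∑ i, (q i : ℝ) * (nk (k i) * cos ((l : ℕ) * tk (k i))) : ℝ) : ℂ) +
        ((∑ i, (q i : ℝ) * (nk (k i) * sin ((l : ℕ) * tk (k i))) : ℝ) : ℂ) * Complex.I := by
      rw [Complex.ofReal_sum, Complex.ofReal_sum, Finset.sum_mul, ← Finset.sum_add_distrib]
      refine Finset.sum_congr rfl fun i _ => ?_
      rw [hpow]
      push_cast
      ring
    rw [e, h1, h2]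
    simp)
  funext i
  have h1 := congrFun h0 i
  simp only [Pi.zero_apply] at h1
  have h2 : (q i : ℝ) * nk (k i) = 0 := by exact_mod_cast h1
  have h3 : (q i : ℝ) = 0 := (mul_eq_zero.1 h2).resolve_right (nk_pos (hg i)).ne'
  exact_mod_cast h3

/-- the linear part of a relation -/
noncomputable def lin (L : ℕ) {n : ℕ} (q : Fin n → ℤ) (k : Fin n → ℤ × ℤ) : ((Fin L → ℝ) × (Fin L → ℝ)) →ₗ[ℝ] ℝ where
  toFun w := ∑ i, (q i : ℝ) * (nk (k i) * ∑ l : Fin L, (w.1 l * cos ((l : ℕ) * tk (k i)) + w.2 l * sin ((l : ℕ) * tk (k i))))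
  map_add' w w' := by
    rw [← Finset.sum_add_distrib]
    refine Finset.sum_congr rfl fun i _ => ?_
    rw [← mul_add, ← mul_add, ← Finset.sum_add_distrib]
    congr 2
    refine Finset.sum_congr rfl fun l _ => ?_
    simp only [Prod.fst_add, Prod.snd_add, Pi.add_apply]
    ring
  map_smul' c w := by
    rw [RingHom.id_apply, smul_eq_mul, Finset.mul_sum]
    refine Finset.sum_congr rfl fun i _ => ?_
    have h : ∑ l : Fin L, ((c • w).1 l * cos ((l : ℕ) * tk (k i)) + (c • w).2 l * sin ((l : ℕ) * tk (k i))) =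
        c * ∑ l : Fin L, (w.1 l * cos ((l : ℕ) * tk (k i)) + w.2 l * sin ((l : ℕ) * tk (k i))) := by
      rw [Finset.mul_sum]
      refine Finset.sum_congr rfl fun l _ => ?_
      simp only [Prod.smul_fst, Prod.smul_snd, Pi.smul_apply, smul_eq_mul]
      ring
    rw [h]
    ring

theorem lin_ne {L n : ℕ} (hL : n ≤ L) {k : Fin n → ℤ × ℤ} (hk : Function.Injective k) (hg : ∀ i, Int.gcd (k i).1 (k i).2 = 1) {q : Fin n → ℤ}
    (hq : q ≠ 0) : lin L q k ≠ 0 := by
  intro h0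
  obtain ⟨l, hl⟩ := coef_ne hk hg hq
  have hlL : (l : ℕ) < L := lt_of_lt_of_le l.2 hL
  rcases hl with h | h
  · apply h
    have e := LinearMap.congr_fun h0 ((Pi.single (⟨l, hlL⟩ : Fin L) (1 : ℝ), 0) : (Fin L → ℝ) × (Fin L → ℝ))
    simp only [lin, LinearMap.coe_mk, AddHom.coe_mk, LinearMap.zero_apply, Pi.zero_apply, zero_mul, add_zero] at e
    rw [← e]
    refine Finset.sum_congr rfl fun i _ => ?_
    rw [Finset.sum_eq_single (⟨l, hlL⟩ : Fin L)]
    · rw [Pi.single_eq_same, one_mul]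
    · intro l' _ hl'
      rw [Pi.single_eq_of_ne hl', zero_mul]
    · intro hh
      exact absurd (Finset.mem_univ _) hh
  · apply h
    have e := LinearMap.congr_fun h0 ((0, Pi.single (⟨l, hlL⟩ : Fin L) (1 : ℝ)) : (Fin L → ℝ) × (Fin L → ℝ))
    simp only [lin, LinearMap.coe_mk, AddHom.coe_mk, LinearMap.zero_apply, Pi.zero_apply, zero_mul, zero_add] at e
    rw [← e]
    refine Finset.sum_congr rfl fun i _ => ?_
    rw [Finset.sum_eq_single (⟨l, hlL⟩ : Fin L)]
    · rw [Pi.single_eq_same, one_mul]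
    · intro l' _ hl'
      rw [Pi.single_eq_of_ne hl', zero_mul]
    · intro hh
      exact absurd (Finset.mem_univ _) hh

theorem sum_eq {L : ℕ} (H₀ : ℝ → ℝ) (w : (Fin L → ℝ) × (Fin L → ℝ)) {n : ℕ} (q : Fin n → ℤ) (k : Fin n → ℤ × ℤ) :
    ∑ i, (q i : ℝ) * (nk (k i) * Hw H₀ w (tk (k i))) = ∑ i, (q i : ℝ) * (nk (k i) * H₀ (tk (k i))) + lin L q k w := by
  simp only [lin, LinearMap.coe_mk, AddHom.coe_mk]
  rw [← Finset.sum_add_distrib]
  refine Finset.sum_congr rfl fun i _ => ?_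
  unfold Hw
  ring

/-- a level set of a nonzero linear form is a null set -/
theorem null_of {L : ℕ} (f : ((Fin L → ℝ) × (Fin L → ℝ)) →ₗ[ℝ] ℝ) (hf : f ≠ 0) (a : ℝ) :
    (volume : Measure ((Fin L → ℝ) × (Fin L → ℝ))) {w | a + f w = 0} = 0 := by
  rcases Set.eq_empty_or_nonempty {w | a + f w = 0} with he | ⟨w0, hw0⟩
  · rw [he, measure_empty]
  · refine measure_mono_null (t := (AffineSubspace.mk' w0 (LinearMap.ker f) : Set ((Fin L → ℝ) × (Fin L → ℝ)))) ?_ ?_
    · intro w hw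
      rw [SetLike.mem_coe, AffineSubspace.mem_mk', LinearMap.mem_ker, vsub_eq_sub, map_sub]
      have h1 : a + f w0 = 0 := hw0
      have h2 : a + f w = 0 := hw
      linarith
    · have : (volume : Measure ((Fin L → ℝ) × (Fin L → ℝ))).IsAddHaarMeasure := Measure.prod.instIsAddHaarMeasure _ _
      apply Measure.addHaar_affineSubspace
      intro htop
      have h1 := congrArg AffineSubspace.direction htop
      rw [AffineSubspace.direction_mk', AffineSubspace.direction_top] at h1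
      exact hf (LinearMap.ker_eq_top.1 h1)

/-- the finite version of one relation -/
theorem fin_ne {L n : ℕ} (hL : n ≤ L) {k : Fin n → ℤ × ℤ} (hk : Function.Injective k) (hg : ∀ i, Int.gcd (k i).1 (k i).2 = 1) {q : Fin n → ℤ}
    (hq : q ≠ 0) (H₀ : ℝ → ℝ) : ∀ᵐ w : (Fin L → ℝ) × (Fin L → ℝ), ∑ i, (q i : ℝ) * (nk (k i) * Hw H₀ w (tk (k i))) ≠ 0 := by
  have h1 := null_of (lin L q k) (lin_ne hL hk hg hq) (∑ i, (q i : ℝ) * (nk (k i) * H₀ (tk (k i))))
  rw [← compl_mem_ae_iff] at h1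
  filter_upwards [h1] with w hw
  rw [sum_eq]
  exact hw

/-- the values of the random support function are measurable -/
theorem hx_meas {H₀ : ℝ → ℝ} {s : ℕ → ℝ} (hs : Summable (fun l : ℕ => (l : ℝ) ^ 2 * |s l|)) (θ : ℝ) : Measurable fun x : ℕ → I × I => Hx H₀ s x θ := by
  have h1 : ∀ l : ℕ, Measurable fun x : ℕ → I × I => s l * (((x l).1 : ℝ) * cos (l * θ) + ((x l).2 : ℝ) * sin (l * θ)) := by
    intro l
    have ha : Measurable fun x : ℕ → I × I => ((x l).1 : ℝ) := measurable_subtype_coe.comp (measurable_fst.comp (measurable_pi_apply l))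
    have hb : Measurable fun x : ℕ → I × I => ((x l).2 : ℝ) := measurable_subtype_coe.comp (measurable_snd.comp (measurable_pi_apply l))
    exact ((ha.mul_const _).add (hb.mul_const _)).const_mul _
  have hsum : ∀ x : ℕ → I × I, Summable fun l : ℕ => s l * (((x l).1 : ℝ) * cos (l * θ) + ((x l).2 : ℝ) * sin (l * θ)) := by
    intro x
    refine (summable_nat_add_iff 1).1 (Summable.of_norm_bounded (((summable_nat_add_iff 1).2 hs).mul_left 2) fun l => ?_)
    have u1 : |((x (l + 1)).1 : ℝ)| ≤ 1 := abs_le.2 ⟨by linarith [(x (l + 1)).1.2.1], (x (l + 1)).1.2.2⟩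
    have u2 : |((x (l + 1)).2 : ℝ)| ≤ 1 := abs_le.2 ⟨by linarith [(x (l + 1)).2.2.1], (x (l + 1)).2.2.2⟩
    rw [Real.norm_eq_abs, abs_mul]
    have h2 : |((x (l + 1)).1 : ℝ) * cos (((l + 1 : ℕ) : ℝ) * θ) + ((x (l + 1)).2 : ℝ) * sin (((l + 1 : ℕ) : ℝ) * θ)| ≤ 2 := by
      refine (abs_add_le _ _).trans ?_
      rw [abs_mul, abs_mul]
      have h3 := mul_le_mul u1 (abs_cos_le_one (((l + 1 : ℕ) : ℝ) * θ)) (abs_nonneg _) zero_le_one
      have h4 := mul_le_mul u2 (abs_sin_le_one (((l + 1 : ℕ) : ℝ) * θ)) (abs_nonneg _) zero_le_one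
      linarith
    have h5 : (1 : ℝ) ≤ ((l + 1 : ℕ) : ℝ) ^ 2 := by
      have : (1 : ℝ) ≤ ((l + 1 : ℕ) : ℝ) := by exact_mod_cast Nat.succ_le_succ (Nat.zero_le l)
      nlinarith
    calc |s (l + 1)| * |((x (l + 1)).1 : ℝ) * cos (((l + 1 : ℕ) : ℝ) * θ) + ((x (l + 1)).2 : ℝ) * sin (((l + 1 : ℕ) : ℝ) * θ)| ≤ |s (l + 1)| * 2 :=
          mul_le_mul_of_nonneg_left h2 (abs_nonneg _)
      _ = 2 * (1 * |s (l + 1)|) := by ring
      _ ≤ 2 * (((l + 1 : ℕ) : ℝ) ^ 2 * |s (l + 1)|) := by gcongr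
  unfold Hx
  refine measurable_const.add ?_
  have h2 := measurable_of_tendsto_metrizable (fun N : ℕ => Finset.measurable_sum (Finset.range N) fun l _ => h1 l)
    (tendsto_pi_nhds.2 fun x => (hsum x).hasSum.tendsto_sum_nat)
  exact h2

/-- one relation for the series -/
theorem ser_ne {n : ℕ} {k : Fin n → ℤ × ℤ} (hk : Function.Injective k) (hg : ∀ i, Int.gcd (k i).1 (k i).2 = 1) {q : Fin n → ℤ}
    (hq : q ≠ 0) {H₀ : ℝ → ℝ} (h0 : ContDiff ℝ 2 H₀) (hp : Function.Periodic H₀ (2 * π)) {s : ℕ → ℝ}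
    (hs : Summable (fun l : ℕ => (l : ℝ) ^ 2 * |s l|)) (hs0 : ∀ l, s l ≠ 0) :
    ∀ᵐ x ∂(Measure.infinitePi fun _ : ℕ => (volume : Measure (I × I))), ∑ i, (q i : ℝ) * (nk (k i) * Hx H₀ s x (tk (k i))) ≠ 0 := by
  have hm : Measurable fun x : ℕ → I × I => ∑ i, (q i : ℝ) * (nk (k i) * Hx H₀ s x (tk (k i))) :=
    Finset.measurable_sum _ fun i _ => ((hx_meas hs _).const_mul _).const_mul _
  refine ae_cmb n (S := {x | ∑ i, (q i : ℝ) * (nk (k i) * Hx H₀ s x (tk (k i))) ≠ 0}) (hm (measurableSet_singleton 0).compl) ?_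
  intro t
  obtain ⟨H₁, -, -, hH⟩ := Hx_cmb h0 hp hs n t
  have hh := head_ae (s := fun l : Fin n => s l) (fun l => hs0 l) (fin_ne (L := n) le_rfl hk hg hq H₁)
  filter_upwards [hh] with y hy
  rw [hH y]
  exact hy

/-- **B**: almost surely the frequencies are independent -/
theorem ind_ae {H₀ : ℝ → ℝ} (h0 : ContDiff ℝ 2 H₀) (hp : Function.Periodic H₀ (2 * π)) {s : ℕ → ℝ}
    (hs : Summable (fun l : ℕ => (l : ℝ) ^ 2 * |s l|)) (hs0 : ∀ l, s l ≠ 0) :
    ∀ᵐ x ∂(Measure.infinitePi fun _ : ℕ => (volume : Measure (I × I))), Ind (Hx H₀ s x) := by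
  have h : ∀ᵐ x ∂(Measure.infinitePi fun _ : ℕ => (volume : Measure (I × I))), ∀ (n : ℕ) (p : (Fin n → ℤ × ℤ) × (Fin n → ℤ)),
      Function.Injective p.1 → (∀ i, Int.gcd (p.1 i).1 (p.1 i).2 = 1) → p.2 ≠ 0 →
        ∑ i, (p.2 i : ℝ) * (nk (p.1 i) * Hx H₀ s x (tk (p.1 i))) ≠ 0 := by
    rw [ae_all_iff]
    intro n
    rw [ae_all_iff]
    rintro ⟨k, q⟩
    by_cases hk : Function.Injective k ∧ (∀ i, Int.gcd (k i).1 (k i).2 = 1) ∧ q ≠ 0
    · filter_upwards [ser_ne hk.1 hk.2.1 hk.2.2 h0 hp hs hs0] with x hx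
      exact fun _ _ _ => hx
    · exact Eventually.of_forall fun x h1 h2 h3 => absurd ⟨h1, h2, h3⟩ hk
  filter_upwards [h] with x hx
  intro n k hk hg q hsum
  by_contra hq
  exact hx n (k, q) hk hg hq hsum

/-- the set of independence is measurable -/
theorem ind_meas {H₀ : ℝ → ℝ} {s : ℕ → ℝ} (hs : Summable (fun l : ℕ => (l : ℝ) ^ 2 * |s l|)) : MeasurableSet {x : ℕ → I × I | Ind (Hx H₀ s x)} := by
  have e : {x : ℕ → I × I | Ind (Hx H₀ s x)} = ⋂ n : ℕ, ⋂ p : (Fin n → ℤ × ℤ) × (Fin n → ℤ),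
      {x | Function.Injective p.1 → (∀ i, Int.gcd (p.1 i).1 (p.1 i).2 = 1) → p.2 ≠ 0 →
        ∑ i, (p.2 i : ℝ) * (nk (p.1 i) * Hx H₀ s x (tk (p.1 i))) ≠ 0} := by
    ext x
    simp only [mem_setOf_eq, mem_iInter, Prod.forall, Ind]
    constructor
    · intro h n k q hk hg hq hsum
      exact hq (h n k hk hg q hsum)
    · intro h n k hk hg q hsum
      by_contra hq
      exact h n k q hk hg hq hsum
  rw [e]
  refine MeasurableSet.iInter fun n => MeasurableSet.iInter fun p => ?_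
  by_cases hk : Function.Injective p.1 ∧ (∀ i, Int.gcd (p.1 i).1 (p.1 i).2 = 1) ∧ p.2 ≠ 0
  · have e2 : {x : ℕ → I × I | Function.Injective p.1 → (∀ i, Int.gcd (p.1 i).1 (p.1 i).2 = 1) → p.2 ≠ 0 →
        ∑ i, (p.2 i : ℝ) * (nk (p.1 i) * Hx H₀ s x (tk (p.1 i))) ≠ 0} =
        {x | ∑ i, (p.2 i : ℝ) * (nk (p.1 i) * Hx H₀ s x (tk (p.1 i))) ≠ 0} := by
      ext x
      exact ⟨fun h => h hk.1 hk.2.1 hk.2.2, fun h _ _ _ => h⟩
    rw [e2]
    have hm : Measurable fun x : ℕ → I × I => ∑ i, (p.2 i : ℝ) * (nk (p.1 i) * Hx H₀ s x (tk (p.1 i))) :=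
      Finset.measurable_sum _ fun i _ => ((hx_meas hs _).const_mul _).const_mul _
    exact hm (measurableSet_singleton 0).compl
  · have e2 : {x : ℕ → I × I | Function.Injective p.1 → (∀ i, Int.gcd (p.1 i).1 (p.1 i).2 = 1) → p.2 ≠ 0 →
        ∑ i, (p.2 i : ℝ) * (nk (p.1 i) * Hx H₀ s x (tk (p.1 i))) ≠ 0} = univ :=
      eq_univ_of_forall fun x h1 h2 h3 => absurd ⟨h1, h2, h3⟩ hk
    rw [e2]
    exact MeasurableSet.univ

/-- integer relations over any finite type of primitive vectors -/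
theorem Ind.fintype {H : ℝ → ℝ} (h : Ind H) {ι : Type} [Fintype ι] {k : ι → ℤ × ℤ} (hk : Function.Injective k)
    (hg : ∀ i, Int.gcd (k i).1 (k i).2 = 1) {q : ι → ℤ} (hq : ∑ i, (q i : ℝ) * (nk (k i) * H (tk (k i))) = 0) : q = 0 := by
  classical
  set e := (Fintype.equivFin ι).symm with he
  have h1 := h (Fintype.card ι) (k ∘ e) (hk.comp e.injective) (fun i => hg _) (q ∘ e) (by
    rw [← hq]
    exact e.sum_comp fun i => (q i : ℝ) * (nk (k i) * H (tk (k i))))
  funext i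
  have h2 := congrFun h1 (e.symm i)
  simpa using h2

/-- linear independence over `ℚ` -/
theorem Ind.linearIndependent {H : ℝ → ℝ} (h : Ind H) {ι : Type} [Fintype ι] {k : ι → ℤ × ℤ} (hk : Function.Injective k)
    (hg : ∀ i, Int.gcd (k i).1 (k i).2 = 1) : LinearIndependent ℚ fun i => nk (k i) * H (tk (k i)) := by
  classical
  have hZ : LinearIndependent ℤ fun i => nk (k i) * H (tk (k i)) := by
    rw [Fintype.linearIndependent_iff]
    intro g hg'
    have h1 := h.fintype hk hg (q := g) (by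
      rw [← hg']
      exact Finset.sum_congr rfl fun i _ => by rw [zsmul_eq_mul])
    intro i
    rw [h1]
    rfl
  exact (LinearIndependent.iff_fractionRing ℤ ℚ).1 hZ

/-- the primitive vectors of maximum norm `< N` -/
theorem Ind.prim {H : ℝ → ℝ} (h : Ind H) (N : ℕ) : LinearIndependent ℚ fun k : {k // k ∈ prim N} => nk k.1 * H (tk k.1) :=
  h.linearIndependent (k := fun k : {k // k ∈ Pool.Agent.Helper93.EX.prim N} => k.1) Subtype.val_injective fun k => by
    have := k.2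
    unfold Pool.Agent.Helper93.EX.prim at this
    exact (Finset.mem_filter.1 this).2.1

end Pool.Agent.Helper35.XL
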