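import Pool.Agent.Helper22.XL.Defs
import Pool.Agent.Helper35.XL.Freq

/-!
# XL, blocks B and E2 in the form of the stubs: `LI` holds almost surely and its set is measurable
-/

open MeasureTheory Real Set Filter Topology unitInterval

set_option autoImplicit false

namespace Pool.Agent.Helper35.XL

open Pool.Agent.Helper22.AE
open Pool.Agent.Helper93.EX (prim)
open Pool.Agent.Helper22.XL (LI)

theorem li_of_ind {H : ℝ → ℝ} (h : Ind H) : LI H := by
  intro N s hs
  exact h.fintype (k := fun k : {k // k ∈ prim N} => k.1) Subtype.val_injective (fun k => by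
    have := k.2
    unfold Pool.Agent.Helper93.EX.prim at this
    exact (Finset.mem_filter.1 this).2.1) hs

/-- B -/
theorem li_ser {H₀ : ℝ → ℝ} (h0 : ContDiff ℝ 2 H₀) (hp : Function.Periodic H₀ (2 * π)) {s : ℕ → ℝ}
    (hs : Summable (fun l : ℕ => (l : ℝ) ^ 2 * |s l|)) (hs0 : ∀ l, s l ≠ 0) :
    ∀ᵐ x ∂(Measure.infinitePi fun _ : ℕ => (volume : Measure (I × I))), LI (Hx H₀ s x) := by
  filter_upwards [ind_ae h0 hp hs hs0] with x hx
  exact li_of_ind hx

/-- E2 -/
theorem li_meas {H₀ : ℝ → ℝ} (_h0 : ContDiff ℝ 2 H₀) (_hp : Function.Periodic H₀ (2 * π)) {s : ℕ → ℝ}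
    (hs : Summable (fun l : ℕ => (l : ℝ) ^ 2 * |s l|)) : MeasurableSet {x : ℕ → I × I | LI (Hx H₀ s x)} := by
  have e : {x : ℕ → I × I | LI (Hx H₀ s x)} = ⋂ N : ℕ, ⋂ q : {k // k ∈ prim N} → ℤ,
      {x | q ≠ 0 → ∑ k, (q k : ℝ) * (nk k.1 * Hx H₀ s x (tk k.1)) ≠ 0} := by
    ext x
    simp only [mem_setOf_eq, mem_iInter, LI]
    constructor
    · intro h N q hq hsum
      exact hq (h N q hsum)
    · intro h N q hsum
      by_contra hq
      exact h N q hq hsum
  rw [e]
  refine MeasurableSet.iInter fun N => MeasurableSet.iInter fun q => ?_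
  by_cases hq : q ≠ 0
  · have e2 : {x : ℕ → I × I | q ≠ 0 → ∑ k, (q k : ℝ) * (nk k.1 * Hx H₀ s x (tk k.1)) ≠ 0} =
        {x | ∑ k, (q k : ℝ) * (nk k.1 * Hx H₀ s x (tk k.1)) ≠ 0} := by
      ext x
      exact ⟨fun h => h hq, fun h _ => h⟩
    rw [e2]
    have hm : Measurable fun x : ℕ → I × I => ∑ k, (q k : ℝ) * (nk k.1 * Hx H₀ s x (tk k.1)) :=
      Finset.measurable_sum _ fun k _ => ((hx_meas hs _).const_mul _).const_mul _
    exact hm (measurableSet_singleton 0).compl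
  · have e2 : {x : ℕ → I × I | q ≠ 0 → ∑ k, (q k : ℝ) * (nk k.1 * Hx H₀ s x (tk k.1)) ≠ 0} = univ :=
      eq_univ_of_forall fun x h => absurd h hq
    rw [e2]
    exact MeasurableSet.univ

end Pool.Agent.Helper35.XL
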